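import Mathlib
import Pool.Agent.H715R2.Isolation
import Pool.Agent.H715R2.MinimalSet

/-! # Products of linear forms: a coordinate subspace stable under a number field -/

open NumberField Filter Topology Matrix H715R2

namespace Pool.Agent.R629.CSD

set_option linter.unusedSectionVars false

variable {K : Type*} [Field K] [NumberField K] {d : ℕ}

/-- the data: a number field with a basis, an invertible real matrix `g = H · (τ(b_j))`, whose
rows in `S` are supported at the embeddings in `T`, `|S| = |T|` -/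
structure SD (K : Type*) [Field K] [NumberField K] (d : ℕ) where
  hd : 3 ≤ d
  b : Module.Basis (Fin d) ℚ K
  N : ℕ
  hN : 0 < N
  hNe : Even N
  act : ∀ u : (𝓞 K)ˣ, ∀ x : Fin d → ℤ, ∃ y : Fin d → ℤ,
      ∑ j, (y j : ℚ) • b j = (((u ^ N : (𝓞 K)ˣ) : 𝓞 K) : K) * ∑ j, (x j : ℚ) • b j
  g : Matrix (Fin d) (Fin d) ℝ
  hg : g.det ≠ 0
  H : Fin d → (K →+* ℂ) → ℂ
  hH : ∀ i j, (g i j : ℂ) = ∑ τ : K →+* ℂ, H i τ * τ (b j)
  S : Finset (Fin d)
  T : Finset (K →+* ℂ)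
  hT : ∀ i ∈ S, ∀ τ, τ ∉ T → H i τ = 0
  hST : T.card = S.card
  hS0 : 0 < S.card
  hSd : S.card < d
  hTc : ∀ τ, ComplexEmbedding.conjugate τ ∈ T ↔ τ ∈ T
  hfib : ∀ τ τ' : K →+* ℂ, τ ≠ τ' → ∃ φ ψ : K →+* ℂ, φ ∈ T ∧ ψ ∉ T ∧
    ∀ z : K, τ z = τ' z → ψ z = φ z

namespace SD

variable (D : SD K d)

open scoped Classical

/-- normalising factor -/
noncomputable def r (v : (𝓞 K)ˣ) : ℝ :=
  (∏ τ ∈ D.T, ‖τ (uu D.N v)‖) ^ (1 / ((D.S.card : ℝ) * ((d : ℝ) - D.S.card)))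

lemma prod_pos (v : (𝓞 K)ˣ) : 0 < ∏ τ ∈ D.T, ‖τ (uu D.N v)‖ :=
  Finset.prod_pos fun τ _ => norm_pos_iff.2 (tau_ne _ _ _)

lemma r_pos (v : (𝓞 K)ˣ) : 0 < D.r v := Real.rpow_pos_of_pos (D.prod_pos v) _

lemma r_mul (v w : (𝓞 K)ˣ) : D.r (v * w) = D.r v * D.r w := by
  simp only [r, uu_mul, map_mul, norm_mul, Finset.prod_mul_distrib]
  exact Real.mul_rpow (D.prod_pos v).le (D.prod_pos w).le

lemma r_one : D.r (1 : (𝓞 K)ˣ) = 1 := by simp [r, uu_one]

lemma r_inv (v : (𝓞 K)ˣ) : D.r v⁻¹ = (D.r v)⁻¹ := by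
  refine eq_inv_of_mul_eq_one_left ?_
  rw [← D.r_mul, inv_mul_cancel, D.r_one]

/-- the scaling at an embedding -/
noncomputable def sc (τ : K →+* ℂ) (v : (𝓞 K)ˣ) : ℝ :=
  if τ ∈ D.T then (D.r v ^ (d - D.S.card))⁻¹ else D.r v ^ D.S.card

lemma sc_pos (τ : K →+* ℂ) (v : (𝓞 K)ˣ) : 0 < D.sc τ v := by
  unfold sc
  have := D.r_pos v
  split_ifs <;> positivity

lemma sc_mul (τ : K →+* ℂ) (v w : (𝓞 K)ˣ) : D.sc τ (v * w) = D.sc τ v * D.sc τ w := by
  unfold sc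
  split_ifs
  · rw [r_mul, mul_pow, mul_inv]
  · rw [r_mul, mul_pow]

lemma sc_one (τ : K →+* ℂ) : D.sc τ 1 = 1 := by
  unfold sc
  split_ifs <;> simp [r_one]

/-- the normalised embedding of the units -/
noncomputable def rho : (𝓞 K)ˣ →* ((K →+* ℂ) → ℂˣ) where
  toFun v := fun τ => Units.mk0 (τ (uu D.N v) * (D.sc τ v : ℂ))
    (mul_ne_zero (tau_ne _ _ _) (by exact_mod_cast (D.sc_pos τ v).ne'))
  map_one' := by
    funext τ
    apply Units.ext
    simp [uu_one, sc_one]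
  map_mul' v w := by
    funext τ
    apply Units.ext
    simp only [Units.val_mk0, Pi.mul_apply, Units.val_mul, uu_mul, map_mul, sc_mul,
      Complex.ofReal_mul]
    ring

lemma rho_val (v : (𝓞 K)ˣ) (τ : K →+* ℂ) :
    ((D.rho v τ : ℂˣ) : ℂ) = τ (uu D.N v) * (D.sc τ v : ℂ) := rfl

/-- closure of the normalised group of units -/
noncomputable def C : Subgroup ((K →+* ℂ) → ℂˣ) := D.rho.range.topologicalClosure

lemma isClosed_C : IsClosed (D.C : Set ((K →+* ℂ) → ℂˣ)) := Subgroup.isClosed_topologicalClosure _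

include D in
lemma card_emb : Fintype.card (K →+* ℂ) = d := by
  rw [NumberField.Embeddings.card K ℂ, Module.finrank_eq_card_basis D.b, Fintype.card_fin]

/-- `T` is a union of classes of places -/
lemma mem_T_iff (τ τ' : K →+* ℂ) (h : InfinitePlace.mk τ = InfinitePlace.mk τ') :
    τ ∈ D.T ↔ τ' ∈ D.T := by
  rcases InfinitePlace.mk_eq_iff.1 h with h | h
  · rw [h]
  · rw [← h, D.hTc]

/-- a sequence of units in the direction contracting `T` -/
lemma exists_seq : ∃ R : ℝ, 0 ≤ R ∧ ∀ n : ℕ, ∃ v : (𝓞 K)ˣ,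
    (∀ τ : K →+* ℂ, Real.exp (-R) ≤ ‖((D.rho v τ : ℂˣ) : ℂ)‖ ∧
      ‖((D.rho v τ : ℂˣ) : ℂ)‖ ≤ Real.exp R) ∧ D.r v ≤ Real.exp (-(n : ℝ) + R) := by
  obtain ⟨R, hR, h⟩ := exists_unit_pow_near K D.N D.hN
  have hd := D.hd
  have hS0 := D.hS0
  have hSd := D.hSd
  set m : ℝ := (D.S.card : ℝ) with hm
  have hm1 : (1 : ℝ) ≤ m := by rw [hm]; exact_mod_cast hS0
  have hdm : (1 : ℝ) ≤ (d : ℝ) - m := by
    have : ((D.S.card + 1 : ℕ) : ℝ) ≤ d := by exact_mod_cast hSd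
    push_cast at this
    rw [hm]; linarith
  have hcastsub : (((d - D.S.card : ℕ)) : ℝ) = (d : ℝ) - m := by
    rw [Nat.cast_sub hSd.le]
  refine ⟨((d : ℝ) + 1) * R, by positivity, fun n => ?_⟩
  set p : InfinitePlace K → ℝ := fun w => if w ∈ D.T.image InfinitePlace.mk
    then -((d : ℝ) - m) * n else m * n with hp
  have hpT : ∀ τ ∈ D.T, p (InfinitePlace.mk τ) = -((d : ℝ) - m) * n := by
    intro τ hτ
    simp only [hp]
    rw [if_pos (Finset.mem_image_of_mem _ hτ)]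
  have hpT' : ∀ τ, τ ∉ D.T → p (InfinitePlace.mk τ) = m * n := by
    intro τ hτ
    simp only [hp]
    rw [if_neg]
    intro hmem
    obtain ⟨τ', hτ', he⟩ := Finset.mem_image.1 hmem
    exact hτ ((D.mem_T_iff τ' τ he).1 hτ')
  have hsum : ∑ τ : K →+* ℂ, p (InfinitePlace.mk τ) = 0 := by
    rw [← Finset.sum_add_sum_compl D.T, Finset.sum_congr rfl hpT,
      Finset.sum_congr rfl (fun τ hτ => hpT' τ (Finset.mem_compl.1 hτ)), Finset.sum_const,
      Finset.sum_const, Finset.card_compl, D.card_emb, D.hST, nsmul_eq_mul, nsmul_eq_mul,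
      hcastsub]
    ring
  obtain ⟨v, hv⟩ := h p hsum
  have hlog : Real.log (D.r v) = (1 / (m * ((d : ℝ) - m))) * ∑ τ ∈ D.T, Real.log ‖τ (uu D.N v)‖ := by
    rw [r, Real.log_rpow (D.prod_pos v), Real.log_prod]
    intro τ _
    exact (norm_pos_iff.2 (tau_ne _ _ _)).ne'
  have hsum2 : |∑ τ ∈ D.T, Real.log ‖τ (uu D.N v)‖ + m * ((d : ℝ) - m) * n| ≤ m * R := by
    have h1 : ∑ τ ∈ D.T, Real.log ‖τ (uu D.N v)‖ + m * ((d : ℝ) - m) * n
        = ∑ τ ∈ D.T, (Real.log ‖τ (uu D.N v)‖ - p (InfinitePlace.mk τ)) := by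
      rw [Finset.sum_sub_distrib, Finset.sum_congr rfl hpT, Finset.sum_const, D.hST, nsmul_eq_mul]
      ring
    rw [h1]
    refine (Finset.abs_sum_le_sum_abs _ _).trans ?_
    refine (Finset.sum_le_sum fun τ _ => hv τ).trans ?_
    rw [Finset.sum_const, D.hST, nsmul_eq_mul]
  have hr1 : ((d : ℝ) - m) * |Real.log (D.r v) + n| ≤ R := by
    have h5 : ((d : ℝ) - m) * (Real.log (D.r v) + n)
        = (1 / m) * (∑ τ ∈ D.T, Real.log ‖τ (uu D.N v)‖ + m * ((d : ℝ) - m) * n) := by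
      rw [hlog]
      have : (d : ℝ) - m ≠ 0 := by linarith
      have : m ≠ 0 := by linarith
      field_simp
    rw [← abs_of_nonneg (show (0 : ℝ) ≤ (d : ℝ) - m by linarith), ← abs_mul, h5, abs_mul,
      abs_of_pos (show (0 : ℝ) < 1 / m by positivity)]
    rw [one_div, inv_mul_le_iff₀ (by linarith)]
    exact hsum2
  have hr2 : |Real.log (D.r v) + n| ≤ R := by
    refine le_trans ?_ hr1
    exact le_mul_of_one_le_left (abs_nonneg _) hdm
  have hr3 := abs_le.1 hr2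
  have hdR : (d : ℝ) * R ≥ m * R := mul_le_mul_of_nonneg_right (by linarith) hR
  refine ⟨v, fun τ => ?_, ?_⟩
  · have h6 := abs_le.1 (hv τ)
    have hpos : 0 < ‖((D.rho v τ : ℂˣ) : ℂ)‖ := norm_pos_iff.2 (Units.ne_zero _)
    have h8 : Real.log ‖((D.rho v τ : ℂˣ) : ℂ)‖ = Real.log ‖τ (uu D.N v)‖ + Real.log (D.sc τ v) := by
      rw [D.rho_val, norm_mul, Real.log_mul (norm_ne_zero_iff.2 (tau_ne _ _ _)) _]
      · rw [Complex.norm_real, Real.norm_eq_abs, abs_of_pos (D.sc_pos τ v)]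
      · rw [Complex.norm_real, Real.norm_eq_abs, abs_of_pos (D.sc_pos τ v)]
        exact (D.sc_pos τ v).ne'
    have h9 : Real.log ‖τ (uu D.N v)‖ = Real.log ‖τ (((v ^ D.N : (𝓞 K)ˣ) : 𝓞 K) : K)‖ := rfl
    have h10 : |Real.log ‖((D.rho v τ : ℂˣ) : ℂ)‖| ≤ ((d : ℝ) + 1) * R := by
      by_cases hτ : τ ∈ D.T
      · rw [hpT τ hτ] at h6
        have h11 : Real.log (D.sc τ v) = -(((d : ℝ) - m) * Real.log (D.r v)) := by
          rw [sc, if_pos hτ, Real.log_inv, Real.log_pow, hcastsub]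
        have h12 : |((d : ℝ) - m) * (Real.log (D.r v) + n)| ≤ R := by
          rw [abs_mul, abs_of_nonneg (show (0 : ℝ) ≤ (d : ℝ) - m by linarith)]
          exact hr1
        have h13 := abs_le.1 h12
        rw [h8, h11, h9, abs_le]
        have : (2 : ℝ) * R ≤ ((d : ℝ) + 1) * R := by
          refine mul_le_mul_of_nonneg_right ?_ hR
          have : (3 : ℝ) ≤ d := by exact_mod_cast hd
          linarith
        constructor <;> nlinarith [h6.1, h6.2, h13.1, h13.2]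
      · rw [hpT' τ hτ] at h6
        have h11 : Real.log (D.sc τ v) = m * Real.log (D.r v) := by
          rw [sc, if_neg hτ, Real.log_pow]
        have h12 : |m * (Real.log (D.r v) + n)| ≤ m * R := by
          rw [abs_mul, abs_of_nonneg (show (0 : ℝ) ≤ m by linarith)]
          exact mul_le_mul_of_nonneg_left hr2 (by linarith)
        have h13 := abs_le.1 h12
        rw [h8, h11, h9, abs_le]
        constructor <;> nlinarith [h6.1, h6.2, h13.1, h13.2]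
    have h14 := abs_le.1 h10
    constructor
    · rw [← Real.exp_log hpos, Real.exp_le_exp]
      exact h14.1
    · rw [← Real.exp_log hpos, Real.exp_le_exp]
      exact h14.2
  · rw [← Real.exp_log (D.r_pos v), Real.exp_le_exp]
    have : R ≤ ((d : ℝ) + 1) * R := le_mul_of_one_le_left hR (by linarith)
    linarith [hr3.2]

/-- units close to `1` in the normalised sense and contracting `T` -/
lemma exists_small (δ : ℝ) (hδ : 0 < δ) : ∃ v : (𝓞 K)ˣ,
    (∀ τ : K →+* ℂ, ‖((D.rho v τ : ℂˣ) : ℂ) - 1‖ < δ) ∧ D.r v < δ := by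
  obtain ⟨R, hR, h⟩ := D.exists_seq
  choose v hv hv2 using h
  set s : ℕ → (K →+* ℂ) → ℂ := fun m τ => ((D.rho (v m) τ : ℂˣ) : ℂ) with hs
  have hbd : ∀ m, s m ∈ Metric.closedBall (0 : (K →+* ℂ) → ℂ) (Real.exp R) := by
    intro m
    rw [mem_closedBall_zero_iff, pi_norm_le_iff_of_nonneg (Real.exp_pos R).le]
    exact fun τ => (hv m τ).2
  obtain ⟨s', _, σ, hσ, hlim⟩ :=
    (isCompact_closedBall (0 : (K →+* ℂ) → ℂ) (Real.exp R)).tendsto_subseq hbd
  set δ' := δ * Real.exp (-R) / 2 with hδ'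
  have hδ'pos : 0 < δ' := by positivity
  rw [Metric.tendsto_atTop] at hlim
  obtain ⟨k0, hk0⟩ := hlim δ' hδ'pos
  have hr0 : Tendsto (fun l : ℕ => D.r (v (σ l)) * (D.r (v (σ k0)))⁻¹) atTop (𝓝 0) := by
    have h1 : Tendsto (fun l : ℕ => Real.exp (-(σ l : ℝ) + R)) atTop (𝓝 0) := by
      refine Real.tendsto_exp_atBot.comp ?_
      refine tendsto_atBot_add_const_right _ _ ?_
      refine tendsto_neg_atTop_atBot.comp ?_
      exact tendsto_natCast_atTop_atTop.comp hσ.tendsto_atTop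
    have h2 : Tendsto (fun l : ℕ => D.r (v (σ l))) atTop (𝓝 0) :=
      squeeze_zero (fun l => (D.r_pos _).le) (fun l => hv2 (σ l)) h1
    simpa using h2.mul_const ((D.r (v (σ k0)))⁻¹)
  obtain ⟨l, hl0, hl⟩ := ((hr0.eventually_lt_const hδ).and (eventually_ge_atTop k0)).exists
  refine ⟨v (σ l) * (v (σ k0))⁻¹, fun τ => ?_, ?_⟩
  · have e1 : ((D.rho (v (σ l) * (v (σ k0))⁻¹) τ : ℂˣ) : ℂ)
        = s (σ l) τ * (s (σ k0) τ)⁻¹ := by
      rw [map_mul, map_inv]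
      simp [hs]
    have hne : s (σ k0) τ ≠ 0 := Units.ne_zero _
    have e2 : s (σ l) τ * (s (σ k0) τ)⁻¹ - 1 = (s (σ l) τ - s (σ k0) τ) * (s (σ k0) τ)⁻¹ := by
      field_simp
    rw [e1, e2, norm_mul, norm_inv]
    have h3 : ‖s (σ l) τ - s (σ k0) τ‖ < 2 * δ' := by
      have a1 := (dist_pi_lt_iff hδ'pos).1 (hk0 l hl) τ
      have a2 := (dist_pi_lt_iff hδ'pos).1 (hk0 k0 le_rfl) τ
      rw [← dist_eq_norm]
      have a3 := dist_triangle_right (s (σ l) τ) (s (σ k0) τ) (s' τ)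
      simp only [Function.comp] at a1 a2
      linarith
    have h4 : ‖s (σ k0) τ‖⁻¹ ≤ Real.exp R := by
      rw [inv_le_comm₀ (norm_pos_iff.2 hne) (Real.exp_pos R), ← Real.exp_neg]
      exact (hv (σ k0) τ).1
    calc ‖s (σ l) τ - s (σ k0) τ‖ * ‖s (σ k0) τ‖⁻¹
        < 2 * δ' * Real.exp R := by
          refine lt_of_lt_of_le (mul_lt_mul_of_pos_right h3 (inv_pos.2 (norm_pos_iff.2 hne))) ?_
          exact mul_le_mul_of_nonneg_left h4 (by positivity)
      _ = δ := by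
          rw [hδ']
          have : Real.exp (-R) * Real.exp R = 1 := by rw [← Real.exp_add]; simp
          linear_combination δ * this
  · rw [D.r_mul, D.r_inv]
    exact hl0

/-- separation of embeddings by the tangent space -/
theorem separation (τ τ' : K →+* ℂ) (hne : τ ≠ τ') (hTT : τ ∈ D.T ↔ τ' ∈ D.T) :
    ∃ η ∈ tang D.C, η τ ≠ η τ' := by
  by_contra hcon
  push Not at hcon
  obtain ⟨δ0, hδ0, h0⟩ := exists_nhds_tang D.C D.isClosed_C
  obtain ⟨δ1, hδ1, h1⟩ := exists_log (ι := (K →+* ℂ)) δ0 hδ0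
  obtain ⟨φ, ψ, hφ, hψ, hψ'⟩ := D.hfib τ τ' hne
  obtain ⟨v, hv1, hv2⟩ := D.exists_small (min δ1 (1 / 2)) (lt_min hδ1 (by norm_num))
  obtain ⟨η, hη, hη'⟩ := h1 (D.rho v) (fun i => (hv1 i).trans_le (min_le_left _ _))
  have hmem : D.rho v ∈ D.C := by
    have : D.rho v ∈ D.rho.range := ⟨v, rfl⟩
    exact Subgroup.le_topologicalClosure _ this
  have hη2 := h0 η hη (by rw [hη']; exact hmem)
  have h2 := hcon η hη2
  have h3 : ((D.rho v τ : ℂˣ) : ℂ) = ((D.rho v τ' : ℂˣ) : ℂ) := by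
    rw [← hη', coe_expM, coe_expM, h2]
  have hsc : D.sc τ v = D.sc τ' v := by
    unfold sc
    by_cases h : τ ∈ D.T
    · rw [if_pos h, if_pos (hTT.1 h)]
    · rw [if_neg h, if_neg (fun h' => h (hTT.2 h'))]
  rw [D.rho_val, D.rho_val, hsc] at h3
  have hr : (D.sc τ' v : ℂ) ≠ 0 := by exact_mod_cast (D.sc_pos τ' v).ne'
  have h4 := hψ' _ (mul_right_cancel₀ hr h3)
  -- sizes
  have hhalf : ∀ σ : K →+* ℂ, (1 : ℝ) / 2 < ‖((D.rho v σ : ℂˣ) : ℂ)‖ ∧
      ‖((D.rho v σ : ℂˣ) : ℂ)‖ < 3 / 2 := by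
    intro σ
    have h7 := (hv1 σ).trans_le (min_le_right _ _)
    have h8 := norm_sub_norm_le (1 : ℂ) ((D.rho v σ : ℂˣ) : ℂ)
    have h9 := norm_sub_norm_le ((D.rho v σ : ℂˣ) : ℂ) (1 : ℂ)
    rw [norm_one, norm_sub_rev] at h8
    rw [norm_one] at h9
    constructor <;> linarith
  have h5 := hhalf ψ
  have h6 := hhalf φ
  rw [D.rho_val, norm_mul, Complex.norm_real, Real.norm_eq_abs, abs_of_pos (D.sc_pos _ _)] at h5 h6
  rw [h4] at h5
  rw [sc, if_neg hψ] at h5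
  rw [sc, if_pos hφ] at h6
  set X := ‖φ (uu D.N v)‖ with hX
  have hXpos : 0 < X := norm_pos_iff.2 (tau_ne _ _ _)
  have hrpos := D.r_pos v
  have hrhalf : D.r v < 1 / 2 := hv2.trans_le (min_le_right _ _)
  have h7 : D.r v ^ D.S.card ≤ D.r v := pow_le_of_le_one hrpos.le (by linarith) D.hS0.ne'
  have h8 : D.r v ^ (d - D.S.card) ≤ D.r v :=
    pow_le_of_le_one hrpos.le (by linarith) (Nat.sub_pos_of_lt D.hSd).ne'
  -- X * r^m > 1/2, X / r^(d-m) < 3/2
  have h9 : X < 3 / 2 * D.r v := by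
    have := h6.2
    rw [← div_eq_mul_inv, div_lt_iff₀ (by positivity)] at this
    nlinarith
  have h10 : 1 / 2 < X * D.r v := by
    refine lt_of_lt_of_le h5.1 ?_
    exact mul_le_mul_of_nonneg_left h7 hXpos.le
  nlinarith

end SD

end Pool.Agent.R629.CSD
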