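import Mathlib
import Pool.Agent.R629.CSD.Sub

/-! # The limit matrix of a form with a coordinate subspace stable under a number field -/

open NumberField Filter Topology Matrix H715R2

namespace Pool.Agent.R629.CSD

set_option linter.unusedSectionVars false

variable {K : Type*} [Field K] [NumberField K] {d : ℕ}

/-- coefficients of a real vector are compatible with complex conjugation -/
lemma coef_conj (b : Module.Basis (Fin d) ℚ K) (h : Fin d → ℝ) (H : (K →+* ℂ) → ℂ)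
    (hH : ∀ j, (h j : ℂ) = ∑ τ : K →+* ℂ, H τ * τ (b j)) (τ : K →+* ℂ) :
    H (ComplexEmbedding.conjugate τ) = (starRingEnd ℂ) (H τ) := by
  have h := embed_indep b
    (fun τ => H τ - (starRingEnd ℂ) (H (ComplexEmbedding.conjugate τ))) ?_
  · have h1 := congrFun h (ComplexEmbedding.conjugate τ)
    have h2 : ComplexEmbedding.conjugate (ComplexEmbedding.conjugate τ) = τ := star_involutive τ
    simp only [h2, Pi.zero_apply] at h1
    exact sub_eq_zero.1 h1
  · intro j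
    simp only [sub_mul, Finset.sum_sub_distrib]
    rw [← hH j]
    have h3 : ∑ τ : K →+* ℂ, (starRingEnd ℂ) (H (ComplexEmbedding.conjugate τ)) * τ (b j)
        = ∑ τ : K →+* ℂ, (starRingEnd ℂ) (H τ) *
            (ComplexEmbedding.conjugate τ) (b j) := by
      refine Fintype.sum_equiv (Function.Involutive.toPerm _ (star_involutive (R := K →+* ℂ)))
        _ _ fun τ => ?_
      have h2 : ComplexEmbedding.conjugate (ComplexEmbedding.conjugate τ) = τ := star_involutive τ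
      show _ = (starRingEnd ℂ) (H (ComplexEmbedding.conjugate τ)) *
        (ComplexEmbedding.conjugate (ComplexEmbedding.conjugate τ)) (b j)
      rw [h2]
    rw [h3]
    have h4 : ∀ τ : K →+* ℂ, (starRingEnd ℂ) (H τ) * (ComplexEmbedding.conjugate τ) (b j)
        = (starRingEnd ℂ) (H τ * τ (b j)) := by
      intro τ
      rw [map_mul]
      rfl
    rw [Finset.sum_congr rfl fun τ _ => h4 τ, ← map_sum, ← hH j, Complex.conj_ofReal, sub_self]

namespace SD

variable (D : SD K d)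

open scoped Classical

/-- the integer matrix of the multiplication by a unit -/
noncomputable def gam (v : (𝓞 K)ˣ) : Matrix (Fin d) (Fin d) ℤ :=
  fun k j => (D.act v (Pi.single j 1)).choose k

lemma single_sum (j : Fin d) :
    (∑ j', ((Pi.single j (1 : ℤ) : Fin d → ℤ) j' : ℚ) • D.b j') = D.b j := by
  rw [Finset.sum_eq_single j]
  · simp
  · intro j' _ hj'
    simp [Pi.single_eq_of_ne hj']
  · intro h
    exact absurd (Finset.mem_univ _) h

lemma gam_spec (v : (𝓞 K)ˣ) (j : Fin d) :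
    ∑ k, ((D.gam v k j : ℤ) : ℚ) • D.b k = uu D.N v * D.b j := by
  refine ((D.act v (Pi.single j 1)).choose_spec).trans ?_
  rw [D.single_sum]
  rfl

lemma gam_inv (v : (𝓞 K)ˣ) : D.gam v * D.gam v⁻¹ = 1 := by
  ext k j
  have h1 : ∑ k, (((D.gam v * D.gam v⁻¹) k j : ℤ) : ℚ) • D.b k = D.b j := by
    calc ∑ k, (((D.gam v * D.gam v⁻¹) k j : ℤ) : ℚ) • D.b k
        = ∑ l, ((D.gam v⁻¹ l j : ℤ) : ℚ) • ∑ k, ((D.gam v k l : ℤ) : ℚ) • D.b k := by
          simp only [Matrix.mul_apply, Finset.smul_sum, smul_smul]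
          rw [Finset.sum_comm]
          refine Finset.sum_congr rfl fun k _ => ?_
          push_cast
          rw [Finset.sum_smul]
          refine Finset.sum_congr rfl fun l _ => ?_
          rw [mul_comm]
      _ = uu D.N v * ∑ l, ((D.gam v⁻¹ l j : ℤ) : ℚ) • D.b l := by
          rw [Finset.mul_sum]
          refine Finset.sum_congr rfl fun l _ => ?_
          rw [D.gam_spec, mul_smul_comm]
      _ = D.b j := by
          rw [D.gam_spec, ← mul_assoc, ← uu_mul, mul_inv_cancel, uu_one, one_mul]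
  have h2 := congrArg (fun z => D.b.repr z k) h1
  simp only [Module.Basis.repr_sum_self, Module.Basis.repr_self] at h2
  rw [Matrix.one_apply]
  have h3 : (((D.gam v * D.gam v⁻¹) k j : ℤ) : ℚ) = if k = j then 1 else 0 := by
    rw [h2, Finsupp.single_apply]
    simp only [eq_comm]
  split_ifs at h3 ⊢ with h
  · exact_mod_cast h3
  · exact_mod_cast h3

lemma gam_unit (v : (𝓞 K)ˣ) : IsUnit (D.gam v).det :=
  Matrix.isUnit_det_of_right_inverse (D.gam_inv v)

/-- the diagonal matrix -/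
noncomputable def av (v : (𝓞 K)ˣ) (i : Fin d) : ℝ :=
  if i ∈ D.S then (D.r v ^ (d - D.S.card))⁻¹ else D.r v ^ D.S.card

lemma av_pos (v : (𝓞 K)ˣ) (i : Fin d) : 0 < D.av v i := by
  have := D.r_pos v
  unfold av
  split_ifs <;> positivity

lemma prod_av (v : (𝓞 K)ˣ) : ∏ i, D.av v i = 1 := by
  have hr := D.r_pos v
  have h1 : ∏ i, D.av v i = (∏ i ∈ D.S, D.av v i) * ∏ i ∈ D.Sᶜ, D.av v i :=
    (Finset.prod_mul_prod_compl _ _).symm
  have h2 : ∏ i ∈ D.S, D.av v i = ∏ i ∈ D.S, (D.r v ^ (d - D.S.card))⁻¹ :=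
    Finset.prod_congr rfl fun i hi => by simp [av, hi]
  have h3 : ∏ i ∈ D.Sᶜ, D.av v i = ∏ i ∈ D.Sᶜ, D.r v ^ D.S.card :=
    Finset.prod_congr rfl fun i hi => by simp [av, Finset.mem_compl.1 hi]
  rw [h1, h2, h3, Finset.prod_const, Finset.prod_const,
    Finset.card_compl, Fintype.card_fin, inv_pow, ← pow_mul, ← pow_mul, mul_comm (d - D.S.card)]
  exact inv_mul_cancel₀ (by positivity)

/-- the coefficients of the limit -/
noncomputable def HT (i : Fin d) (τ : K →+* ℂ) : ℂ := if (i ∈ D.S ↔ τ ∈ D.T) then D.H i τ else 0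

/-- the coefficients of the error term -/
noncomputable def HE (i : Fin d) (τ : K →+* ℂ) : ℂ := if (i ∉ D.S ∧ τ ∈ D.T) then D.H i τ else 0

/-- the limit matrices -/
noncomputable def Gc (c : (K →+* ℂ) → ℂ) (i j : Fin d) : ℂ := ∑ τ, D.HT i τ * c τ * τ (D.b j)

/-- the error term -/
noncomputable def Ec (c : (K →+* ℂ) → ℂ) (i j : Fin d) : ℂ := ∑ τ, D.HE i τ * c τ * τ (D.b j)

/-- the real limit matrices -/
noncomputable def Gr (c : (K →+* ℂ) → ℂ) : Matrix (Fin d) (Fin d) ℝ := fun i j => (D.Gc c i j).re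

lemma continuous_Gc (i j : Fin d) : Continuous fun c : (K →+* ℂ) → ℂ => D.Gc c i j := by
  unfold Gc
  fun_prop

lemma continuous_Ec (i j : Fin d) : Continuous fun c : (K →+* ℂ) → ℂ => D.Ec c i j := by
  unfold Ec
  fun_prop

lemma continuous_Gr : Continuous fun c : (K →+* ℂ) → ℂ => D.Gr c := by
  refine continuous_pi fun i => continuous_pi fun j => ?_
  exact Complex.continuous_re.comp (D.continuous_Gc i j)

/-- the orbit element of a unit -/
noncomputable def Mv (v : (𝓞 K)ˣ) : Matrix (Fin d) (Fin d) ℝ :=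
  diagonal (D.av v) * D.g * zR (D.gam v)

lemma Mv_mem (v : (𝓞 K)ˣ) : D.Mv v ∈ Orb D.g :=
  ⟨D.av v, D.gam v, D.av_pos v, D.prod_av v, D.gam_unit v, rfl⟩

lemma Mv_apply (v : (𝓞 K)ˣ) (i j : Fin d) : ((D.Mv v i j : ℝ) : ℂ)
    = D.Gc (fun τ => ((D.rho v τ : ℂˣ) : ℂ)) i j
      + (D.r v : ℂ) ^ d * D.Ec (fun τ => ((D.rho v τ : ℂˣ) : ℂ)) i j := by
  have h1 : ((D.Mv v i j : ℝ) : ℂ) = (D.av v i : ℂ) * ∑ τ : K →+* ℂ, D.H i τ * (τ (uu D.N v) * τ (D.b j)) := by
    rw [Mv, Matrix.mul_assoc, diagonal_mul, Matrix.mul_apply]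
    push_cast
    congr 1
    simp only [D.hH, Finset.sum_mul]
    rw [Finset.sum_comm]
    refine Finset.sum_congr rfl fun τ _ => ?_
    rw [← map_mul, ← D.gam_spec, map_sum, Finset.mul_sum]
    refine Finset.sum_congr rfl fun k _ => ?_
    rw [Algebra.smul_def, map_mul]
    simp only [zR, Matrix.map_apply, eq_ratCast, Rat.cast_intCast, map_intCast,
      Complex.ofReal_intCast]
    ring
  rw [h1, Gc, Ec, Finset.mul_sum, Finset.mul_sum, ← Finset.sum_add_distrib]
  refine Finset.sum_congr rfl fun τ _ => ?_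
  simp only [D.rho_val]
  have hr : (D.r v : ℂ) ≠ 0 := by exact_mod_cast (D.r_pos v).ne'
  have hdm : (D.r v : ℂ) ^ d = (D.r v : ℂ) ^ (d - D.S.card) * (D.r v : ℂ) ^ D.S.card := by
    rw [← pow_add]
    congr 1
    have := D.hSd
    omega
  by_cases hi : i ∈ D.S
  · by_cases hτ : τ ∈ D.T
    · simp only [av, sc, HT, HE, hi, hτ, if_true, iff_true, not_true_eq_false, false_and, if_false]
      push_cast
      ring
    · rw [D.hT i hi τ hτ]
      simp [HT, HE, hi, hτ]
  · by_cases hτ : τ ∈ D.T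
    · simp only [av, sc, HT, HE, hi, hτ, if_true, not_false_eq_true, true_and, if_false, false_iff,
        not_true_eq_false]
      push_cast
      rw [hdm]
      field_simp
      ring
    · simp only [av, sc, HT, HE, hi, hτ, if_true, and_false, if_false]
      push_cast
      ring

lemma tendsto_rho (v : (𝓞 K)ˣ) : ∃ w : ℕ → (𝓞 K)ˣ,
    Tendsto (fun (k : ℕ) (τ : K →+* ℂ) => ((D.rho (v * w k) τ : ℂˣ) : ℂ)) atTop
      (𝓝 (fun τ => ((D.rho v τ : ℂˣ) : ℂ))) ∧
    Tendsto (fun k : ℕ => D.r (v * w k)) atTop (𝓝 0) := by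
  have h := fun k : ℕ => D.exists_small (1 / ((k : ℝ) + 1)) (by positivity)
  choose w hw1 hw2 using h
  refine ⟨w, ?_, ?_⟩
  · rw [tendsto_pi_nhds]
    intro τ
    have h1 : Tendsto (fun k : ℕ => ((D.rho (w k) τ : ℂˣ) : ℂ)) atTop (𝓝 1) := by
      rw [tendsto_iff_norm_sub_tendsto_zero]
      exact squeeze_zero (fun k => norm_nonneg _) (fun k => (hw1 k τ).le)
        tendsto_one_div_add_atTop_nhds_zero_nat
    have h2 : ∀ k, ((D.rho (v * w k) τ : ℂˣ) : ℂ)
        = ((D.rho v τ : ℂˣ) : ℂ) * ((D.rho (w k) τ : ℂˣ) : ℂ) := by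
      intro k; rw [map_mul]; rfl
    simp only [h2]
    simpa using h1.const_mul ((D.rho v τ : ℂˣ) : ℂ)
  · have h1 : Tendsto (fun k : ℕ => D.r (w k)) atTop (𝓝 0) :=
      squeeze_zero (fun k => (D.r_pos _).le) (fun k => (hw2 k).le)
        tendsto_one_div_add_atTop_nhds_zero_nat
    simp only [D.r_mul]
    simpa using h1.const_mul (D.r v)

lemma tendsto_Mv (v : (𝓞 K)ˣ) : ∃ w : ℕ → (𝓞 K)ˣ, ∀ i j,
    Tendsto (fun k : ℕ => ((D.Mv (v * w k) i j : ℝ) : ℂ)) atTop
      (𝓝 (D.Gc (fun τ => ((D.rho v τ : ℂˣ) : ℂ)) i j)) := by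
  obtain ⟨w, hw1, hw2⟩ := D.tendsto_rho v
  refine ⟨w, fun i j => ?_⟩
  simp only [D.Mv_apply]
  have h1 := ((D.continuous_Gc i j).tendsto _).comp hw1
  have h2 := ((D.continuous_Ec i j).tendsto _).comp hw1
  have h3 : Tendsto (fun k : ℕ => (D.r (v * w k) : ℂ) ^ d) atTop (𝓝 0) := by
    have h5 : Tendsto (fun k : ℕ => ((D.r (v * w k) : ℝ) : ℂ)) atTop (𝓝 ((0 : ℝ) : ℂ)) :=
      (Complex.continuous_ofReal.tendsto _).comp hw2
    have h6 := h5.pow d
    rw [Complex.ofReal_zero, zero_pow (by have := D.hd; omega)] at h6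
    exact h6
  have h4 := h1.add (h3.mul h2)
  rw [zero_mul, add_zero] at h4
  exact h4

lemma Gc_rho_im (v : (𝓞 K)ˣ) (i j : Fin d) :
    (D.Gc (fun τ => ((D.rho v τ : ℂˣ) : ℂ)) i j).im = 0 := by
  obtain ⟨w, hw⟩ := D.tendsto_Mv v
  have hcl : IsClosed {z : ℂ | z.im = 0} := isClosed_eq Complex.continuous_im continuous_const
  exact hcl.mem_of_tendsto (hw i j) (Eventually.of_forall fun k => Complex.ofReal_im _)

lemma Gr_rho_mem (v : (𝓞 K)ˣ) :
    D.Gr (fun τ => ((D.rho v τ : ℂˣ) : ℂ)) ∈ closure (Orb D.g) := by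
  obtain ⟨w, hw⟩ := D.tendsto_Mv v
  have h1 : Tendsto (fun k => D.Mv (v * w k)) atTop
      (𝓝 (D.Gr (fun τ => ((D.rho v τ : ℂˣ) : ℂ)))) := by
    refine tendsto_pi_nhds.2 fun i => tendsto_pi_nhds.2 fun j => ?_
    have h2 := (Complex.continuous_re.tendsto _).comp (hw i j)
    exact h2.congr fun k => Complex.ofReal_re _
  exact mem_closure_of_tendsto h1 (Eventually.of_forall fun k => D.Mv_mem _)

lemma continuous_coe' : Continuous fun (c : (K →+* ℂ) → ℂˣ) => (fun τ => ((c τ : ℂˣ) : ℂ)) :=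
  continuous_pi fun τ => Units.continuous_val.comp (continuous_apply τ)

lemma Gr_mem (c : (K →+* ℂ) → ℂˣ) (hc : c ∈ D.C) :
    D.Gr (fun τ => ((c τ : ℂˣ) : ℂ)) ∈ closure (Orb D.g) := by
  have hcl : IsClosed {c : (K →+* ℂ) → ℂˣ |
      D.Gr (fun τ => ((c τ : ℂˣ) : ℂ)) ∈ closure (Orb D.g)} :=
    isClosed_closure.preimage (D.continuous_Gr.comp continuous_coe')
  have hsub : (D.rho.range : Set ((K →+* ℂ) → ℂˣ)) ⊆ {c : (K →+* ℂ) → ℂˣ |
      D.Gr (fun τ => ((c τ : ℂˣ) : ℂ)) ∈ closure (Orb D.g)} := by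
    rintro _ ⟨v, rfl⟩
    exact D.Gr_rho_mem v
  have hc' : c ∈ closure (D.rho.range : Set ((K →+* ℂ) → ℂˣ)) := hc
  exact closure_minimal hsub hcl hc'

lemma Gc_eq (c : (K →+* ℂ) → ℂˣ) (hc : c ∈ D.C) (i j : Fin d) :
    D.Gc (fun τ => ((c τ : ℂˣ) : ℂ)) i j = ((D.Gr (fun τ => ((c τ : ℂˣ) : ℂ)) i j : ℝ) : ℂ) := by
  have hcl : IsClosed {c : (K →+* ℂ) → ℂˣ | (D.Gc (fun τ => ((c τ : ℂˣ) : ℂ)) i j).im = 0} :=
    isClosed_eq (Complex.continuous_im.comp ((D.continuous_Gc i j).comp continuous_coe'))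
      continuous_const
  have hsub : (D.rho.range : Set ((K →+* ℂ) → ℂˣ)) ⊆
      {c : (K →+* ℂ) → ℂˣ | (D.Gc (fun τ => ((c τ : ℂˣ) : ℂ)) i j).im = 0} := by
    rintro _ ⟨v, rfl⟩
    exact D.Gc_rho_im v i j
  have hc' : c ∈ closure (D.rho.range : Set ((K →+* ℂ) → ℂˣ)) := hc
  have h1 : (D.Gc (fun τ => ((c τ : ℂˣ) : ℂ)) i j).im = 0 := closure_minimal hsub hcl hc'
  exact Complex.ext (by simp [Gr]) (by simp [h1])

/-- the rows as linear functionals -/
noncomputable def fr (c : (K →+* ℂ) → ℂ) (i : Fin d) : (Fin d → ℝ) →ₗ[ℝ] ℝ where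
  toFun x := ∑ j, D.Gr c i j * x j
  map_add' x y := by
    simp only [Pi.add_apply, mul_add, Finset.sum_add_distrib]
  map_smul' a x := by
    simp only [Pi.smul_apply, smul_eq_mul, RingHom.id_apply, Finset.mul_sum]
    exact Finset.sum_congr rfl fun j _ => by ring

lemma fr_ne {ν : ℝ} (hν : 0 < ν) (hnu : HasNu D.g ν) (c : (K →+* ℂ) → ℂˣ) (hc : c ∈ D.C)
    (i : Fin d) (m : Fin d → ℤ) (hm : m ≠ 0) : D.fr (fun τ => ((c τ : ℂˣ) : ℂ)) i (iR m) ≠ 0 := by
  intro h0
  have h1 := hasNu_closure hnu (D.Gr_mem c hc) m hm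
  have h2 : FF (D.Gr (fun τ => ((c τ : ℂˣ) : ℂ))) (iR m) = 0 :=
    Finset.prod_eq_zero (Finset.mem_univ i) h0
  rw [h2, abs_zero] at h1
  linarith

theorem mono {ν : ℝ} (hν : 0 < ν) (hnu : HasNu D.g ν) (i : Fin d) (τ τ' : K →+* ℂ)
    (h1 : D.HT i τ ≠ 0) (h2 : D.HT i τ' ≠ 0) : τ = τ' := by
  by_contra hne
  have hTT : τ ∈ D.T ↔ τ' ∈ D.T := by
    have a1 : i ∈ D.S ↔ τ ∈ D.T := by
      by_contra h
      exact h1 (by rw [HT, if_neg h])
    have a2 : i ∈ D.S ↔ τ' ∈ D.T := by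
      by_contra h
      exact h2 (by rw [HT, if_neg h])
    rw [← a1, ← a2]
  obtain ⟨η, hη, hηne⟩ := D.separation τ τ' hne hTT
  have hd := D.hd
  have hone : (fun τ : K →+* ℂ => ((expM ((0 : ℝ) • η) τ : ℂˣ) : ℂ)) = 1 := by
    funext τ; simp
  set f : ℝ → (Fin d → ℝ) →ₗ[ℝ] ℝ := fun t => D.fr (fun τ => ((expM (t • η) τ : ℂˣ) : ℂ)) i with hf
  have hfne : ∀ t m, m ≠ 0 → f t (iR m) ≠ 0 := fun t m hm => D.fr_ne hν hnu _ (hη t) i m hm
  have hcont : Continuous fun (t : ℝ) (τ : K →+* ℂ) => ((expM (t • η) τ : ℂˣ) : ℂ) := by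
    simp only [coe_expM]
    fun_prop
  have hfc : ∀ x, Continuous fun t : ℝ => f t x := by
    intro x
    have h3 : ∀ t, f t x = ∑ j, D.Gr (fun τ => ((expM (t • η) τ : ℂˣ) : ℂ)) i j * x j := fun t => rfl
    simp only [h3]
    refine continuous_finsetSum _ fun j _ => Continuous.mul ?_ continuous_const
    exact Complex.continuous_re.comp ((D.continuous_Gc i j).comp hcont)
  have hf0 : f 0 ≠ 0 := by
    intro h0
    have h3 := hfne 0 (Pi.single ⟨0, by omega⟩ 1) (by
      intro h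
      have := congrFun h ⟨0, by omega⟩
      simp at this)
    exact h3 (by rw [h0]; rfl)
  have key : ∀ t : ℝ, ∃ κ : ℝ, f t = κ • f 0 := by
    intro t
    by_contra hcon
    obtain ⟨x, hx1, hx2⟩ := exists_pos_neg (f 0) (f t) hf0 (by
      rintro ⟨κ, _, hκ⟩
      exact hcon ⟨κ, hκ⟩)
    have hU : IsOpen {x : Fin d → ℝ | 0 < f 0 x ∧ f t x < 0} :=
      (isOpen_lt continuous_const (f 0).continuous_of_finiteDimensional).inter
        (isOpen_lt (f t).continuous_of_finiteDimensional continuous_const)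
    obtain ⟨m, k, hk, hm⟩ := exists_int_point _ hU x ⟨hx1, hx2⟩
    have hk' : (0 : ℝ) < k := by exact_mod_cast hk
    have e2 : (fun j => (m j : ℝ) / k) = (k : ℝ)⁻¹ • iR m := by
      funext j; simp [iR]; ring
    rw [e2] at hm
    obtain ⟨h6, h7⟩ := hm
    rw [map_smul, smul_eq_mul] at h6 h7
    have hp : 0 < f 0 (iR m) := pos_of_mul_pos_right h6 (inv_nonneg.2 hk'.le)
    have hn : f t (iR m) < 0 := by
      by_contra hcon
      exact absurd h7 (not_lt.2 (mul_nonneg (inv_nonneg.2 hk'.le) (not_lt.1 hcon)))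
    have hm0 : m ≠ 0 := by
      rintro rfl
      have : iR (0 : Fin d → ℤ) = 0 := by funext j; simp [iR]
      rw [this, map_zero] at hp
      exact lt_irrefl _ hp
    obtain ⟨t1, ht1⟩ : (0 : ℝ) ∈ Set.range fun t : ℝ => f t (iR m) :=
      mem_range_of_exists_le_of_exists_ge (hfc _) ⟨t, hn.le⟩ ⟨0, hp.le⟩
    exact hfne t1 m hm0 ht1
  apply hηne
  have h3 : ∀ t : ℝ, Complex.exp (t * η τ) = Complex.exp (t * η τ') := by
    intro t
    obtain ⟨κ, hκ⟩ := key t
    have h4 : ∀ j, D.Gr (fun τ => ((expM (t • η) τ : ℂˣ) : ℂ)) i j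
        = κ * D.Gr (fun τ => ((expM ((0 : ℝ) • η) τ : ℂˣ) : ℂ)) i j := by
      intro j
      have h5 := congrArg (fun F : (Fin d → ℝ) →ₗ[ℝ] ℝ => F (Pi.single j 1)) hκ
      have h6 : ∀ t, f t (Pi.single j 1) = D.Gr (fun τ => ((expM (t • η) τ : ℂˣ) : ℂ)) i j := by
        intro t
        have : f t (Pi.single j 1) = ∑ j', D.Gr (fun τ => ((expM (t • η) τ : ℂˣ) : ℂ)) i j' *
          (Pi.single j (1 : ℝ) : Fin d → ℝ) j' := rfl
        rw [this, Finset.sum_eq_single j]
        · simp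
        · intro j' _ hj'
          simp [Pi.single_eq_of_ne hj']
        · intro h
          exact absurd (Finset.mem_univ _) h
      simp only [LinearMap.smul_apply, smul_eq_mul] at h5
      rw [h6, h6] at h5
      exact h5
    have h5 := embed_indep D.b (fun σ : K →+* ℂ => D.HT i σ * (Complex.exp (t * η σ) - κ)) (by
      intro j
      have h6 := D.Gc_eq _ (hη t) i j
      have h7 := D.Gc_eq _ (hη 0) i j
      rw [h4 j, Complex.ofReal_mul, ← h7] at h6
      rw [hone] at h6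
      simp only [Gc, coe_expM, Pi.smul_apply, Complex.real_smul, Pi.one_apply, mul_one] at h6
      have h8 : ∑ σ : K →+* ℂ, D.HT i σ * (Complex.exp (t * η σ) - κ) * σ (D.b j)
          = ∑ σ : K →+* ℂ, D.HT i σ * Complex.exp (t * η σ) * σ (D.b j)
            - κ * ∑ σ : K →+* ℂ, D.HT i σ * σ (D.b j) := by
        rw [Finset.mul_sum, ← Finset.sum_sub_distrib]
        refine Finset.sum_congr rfl fun σ _ => ?_
        ring
      rw [h8, h6, sub_self])
    have h9 := (mul_eq_zero.1 (congrFun h5 τ)).resolve_left h1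
    have h10 := (mul_eq_zero.1 (congrFun h5 τ')).resolve_left h2
    rw [sub_eq_zero] at h9 h10
    rw [h9, h10]
  have h11 := exp_all_one (η τ - η τ') (fun t => by
    rw [mul_sub, Complex.exp_sub, h3 t, div_self (Complex.exp_ne_zero _)])
  exact sub_eq_zero.1 h11

/-- the orbit closure contains a matrix with a row at a single real embedding -/
theorem exists_dat {ν : ℝ} (hν : 0 < ν) (hnu : HasNu D.g ν) :
    ∃ D' : Dat K d, D'.g ∈ closure (Orb D.g) := by
  have hd := D.hd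
  have hmem1 : (fun τ : K →+* ℂ => (((1 : (K →+* ℂ) → ℂˣ) τ : ℂˣ) : ℂ)) = 1 := by
    funext τ; simp
  have hG := D.Gr_mem 1 D.C.one_mem
  have hGe := fun i j => D.Gc_eq 1 D.C.one_mem i j
  rw [hmem1] at hG hGe
  have hdet : (D.Gr 1).det ≠ 0 := by
    intro h0
    have := abs_det_closure hG
    rw [h0, abs_zero] at this
    exact D.hg (abs_eq_zero.1 this.symm)
  have hH : ∀ i j, ((D.Gr 1 i j : ℝ) : ℂ) = ∑ τ : K →+* ℂ, D.HT i τ * τ (D.b j) := by
    intro i j
    rw [← hGe, Gc]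
    simp
  set i₀ : Fin d := ⟨0, by omega⟩ with hi₀
  obtain ⟨φ, hφ⟩ : ∃ φ, D.HT i₀ φ ≠ 0 := by
    by_contra hcon
    push Not at hcon
    apply hdet
    refine Matrix.det_eq_zero_of_row_eq_zero i₀ fun j => ?_
    have h1 := hH i₀ j
    rw [Finset.sum_eq_zero (fun τ _ => by rw [hcon τ, zero_mul])] at h1
    exact_mod_cast h1
  have hreal : ComplexEmbedding.IsReal φ := by
    rw [ComplexEmbedding.isReal_iff]
    refine D.mono hν hnu i₀ _ _ ?_ hφ
    rw [coef_conj D.b (fun j => D.Gr 1 i₀ j) (D.HT i₀) (fun j => hH i₀ j) φ]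
    exact (map_ne_zero _).2 hφ
  exact ⟨{ hd := D.hd
           b := D.b
           N := D.N
           hN := D.hN
           hNe := D.hNe
           act := D.act
           g := D.Gr 1
           hg := hdet
           H := D.HT
           hH := hH
           i₀ := i₀
           φ := φ
           hφ := hreal
           hi₀ := fun τ hτ => by
             by_contra h
             exact hτ (D.mono hν hnu i₀ _ _ h hφ) }, hG⟩

end SD

end Pool.Agent.R629.CSD
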