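import Mathlib
import Pool.Agent.R629.CSD.Limit

/-! # From an invariant subspace of a rational matrix to the data `SD` -/

open NumberField Filter Topology Matrix H715R2 Polynomial

namespace Pool.Agent.R629.CSD

set_option linter.unusedSectionVars false

variable {d : ℕ}

noncomputable section

/-- the evaluation of `ℚ[X]/(χ_A)` at the matrix `A` -/
def fA (A : Matrix (Fin d) (Fin d) ℚ) : AdjoinRoot A.charpoly →ₐ[ℚ] Matrix (Fin d) (Fin d) ℚ :=
  Ideal.Quotient.liftₐ (Ideal.span {A.charpoly}) (Polynomial.aeval A) (by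
    intro a ha
    obtain ⟨q, rfl⟩ := Ideal.mem_span_singleton.1 ha
    rw [map_mul, Matrix.aeval_self_charpoly, zero_mul])

lemma fA_mk (A : Matrix (Fin d) (Fin d) ℚ) (p : ℚ[X]) :
    fA A (AdjoinRoot.mk A.charpoly p) = Polynomial.aeval A p := rfl

lemma fA_root (A : Matrix (Fin d) (Fin d) ℚ) : fA A (AdjoinRoot.root A.charpoly) = A := by
  have : AdjoinRoot.root A.charpoly = AdjoinRoot.mk A.charpoly X := rfl
  rw [this, fA_mk, aeval_X]

lemma fA_mem (A : Matrix (Fin d) (Fin d) ℚ) (a : AdjoinRoot A.charpoly) :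
    fA A a ∈ Algebra.adjoin ℚ {A} := by
  obtain ⟨p, rfl⟩ := AdjoinRoot.mk_surjective a
  rw [fA_mk]
  exact aeval_mem_adjoin_singleton _ _

variable (A : Matrix (Fin d) (Fin d) ℚ) [Fact (Irreducible A.charpoly)]

instance : NumberField (AdjoinRoot A.charpoly) where
  to_charZero := algebraRat.charZero _
  to_finiteDimensional :=
    Module.Finite.of_basis (AdjoinRoot.powerBasis (Fact.out : Irreducible A.charpoly).ne_zero).basis

lemma finrank_KA : Module.finrank ℚ (AdjoinRoot A.charpoly) = d := by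
  rw [(AdjoinRoot.powerBasis (Fact.out : Irreducible A.charpoly).ne_zero).finrank,
    AdjoinRoot.powerBasis_dim, Matrix.charpoly_natDegree_eq_dim, Fintype.card_fin]

theorem exists_basis (hd : 0 < d) : ∃ b : Module.Basis (Fin d) ℚ (AdjoinRoot A.charpoly),
    ∀ j, AdjoinRoot.root A.charpoly * b j = ∑ k, A k j • b k := by
  set z : Fin d → ℚ := Pi.single ⟨0, hd⟩ 1 with hz
  have hz0 : z ≠ 0 := by
    intro h
    have := congrFun h ⟨0, hd⟩
    simp [hz] at this
  let L : AdjoinRoot A.charpoly →ₗ[ℚ] (Fin d → ℚ) :=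
    { toFun := fun a => fA A a *ᵥ z
      map_add' := by intro a a'; rw [map_add, add_mulVec]
      map_smul' := by intro q a; rw [map_smul, smul_mulVec]; rfl }
  have hL : ∀ a, L a = fA A a *ᵥ z := fun _ => rfl
  have hinj : Function.Injective L := by
    rw [injective_iff_map_eq_zero]
    intro a ha
    by_contra h0
    apply hz0
    have h1 : fA A a⁻¹ *ᵥ (fA A a *ᵥ z) = z := by
      rw [mulVec_mulVec, ← map_mul, inv_mul_cancel₀ h0, map_one, one_mulVec]
    rw [← h1, ← hL, ha, mulVec_zero]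
  let e : AdjoinRoot A.charpoly ≃ₗ[ℚ] (Fin d → ℚ) :=
    LinearEquiv.ofInjectiveOfFinrankEq L hinj (by rw [finrank_KA, Module.finrank_fin_fun])
  have he : ∀ a, e a = fA A a *ᵥ z := fun _ => rfl
  let b : Module.Basis (Fin d) ℚ (AdjoinRoot A.charpoly) := (Pi.basisFun ℚ (Fin d)).map e.symm
  have heb : ∀ j, e (b j) = Pi.single j 1 := by
    intro j
    simp [b]
  refine ⟨b, fun j => ?_⟩
  apply e.injective
  rw [he, map_mul, ← mulVec_mulVec, ← he, heb, fA_root, map_sum]
  simp only [map_smul, heb]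
  funext i
  simp [Finset.sum_apply, Pi.single_apply]

/-- the root generates the field -/
lemma emb_ext (τ τ' : AdjoinRoot A.charpoly →+* ℂ)
    (h : τ (AdjoinRoot.root A.charpoly) = τ' (AdjoinRoot.root A.charpoly)) : τ = τ' := by
  refine RingHom.ext fun a => ?_
  obtain ⟨p, rfl⟩ := AdjoinRoot.mk_surjective a
  have key : ∀ σ : AdjoinRoot A.charpoly →+* ℂ, σ (AdjoinRoot.mk A.charpoly p)
      = p.eval₂ (algebraMap ℚ ℂ) (σ (AdjoinRoot.root A.charpoly)) := by
    intro σ
    have h1 : AdjoinRoot.mk A.charpoly p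
        = p.eval₂ (AdjoinRoot.of A.charpoly) (AdjoinRoot.root A.charpoly) := by
      have h2 := AdjoinRoot.aeval_eq (f := A.charpoly) p
      rw [← h2]
      rfl
    rw [h1, Polynomial.hom_eval₂]
    congr 1
    exact Subsingleton.elim _ _
  rw [key, key, h]

/-- number of extensions of an embedding -/
lemma card_fibre {K : Type*} [Field K] [NumberField K] (F : IntermediateField ℚ K)
    (φ : K →+* ℂ) : Nat.card {ψ : K →+* ℂ // ∀ z ∈ F, ψ z = φ z} = Module.finrank F K := by
  let _ : Algebra F ℂ := (φ.comp (algebraMap F K)).toAlgebra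
  have hcard := AlgHom.card F K ℂ
  rw [← hcard, ← Nat.card_eq_fintype_card]
  refine Nat.card_congr ⟨fun ψ => { ψ.1 with commutes' := fun r => ψ.2 r r.2 },
    fun ψ => ⟨ψ.toRingHom, fun z hz => ψ.commutes ⟨z, hz⟩⟩, fun ψ => ?_, fun ψ => ?_⟩
  · rfl
  · rfl

open scoped Classical in
/-- a union of fibres has cardinality divisible by the relative degree -/
lemma dvd_card {K : Type*} [Field K] [NumberField K] (F : IntermediateField ℚ K)
    (T : Finset (K →+* ℂ))
    (hT : ∀ φ ∈ T, ∀ ψ : K →+* ℂ, (∀ z ∈ F, ψ z = φ z) → ψ ∈ T) :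
    Module.finrank F K ∣ T.card := by
  set res : (K →+* ℂ) → (F →+* ℂ) := fun ψ => ψ.comp (algebraMap F K) with hres
  have hres' : ∀ φ ψ : K →+* ℂ, res ψ = res φ ↔ ∀ z ∈ F, ψ z = φ z := by
    intro φ ψ
    constructor
    · intro h z hz
      exact congrArg (fun f : F →+* ℂ => f ⟨z, hz⟩) h
    · intro h
      ext z
      exact h z z.2
  have h1 : T.card = ∑ σ ∈ T.image res, (T.filter fun ψ => res ψ = σ).card :=
    Finset.card_eq_sum_card_image res T
  rw [h1]
  refine Finset.dvd_sum fun σ hσ => ?_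
  obtain ⟨φ, hφ, rfl⟩ := Finset.mem_image.1 hσ
  have h2 : (T.filter fun ψ => res ψ = res φ).card = Module.finrank F K := by
    rw [← card_fibre F φ]
    have h3 : (T.filter fun ψ => res ψ = res φ) = Finset.univ.filter fun ψ => ∀ z ∈ F, ψ z = φ z := by
      ext ψ
      simp only [Finset.mem_filter, Finset.mem_univ, true_and, hres']
      exact ⟨fun h => h.2, fun h => ⟨hT φ hφ ψ h, h⟩⟩
    rw [h3, Nat.card_eq_fintype_card, Fintype.card_subtype]
  rw [h2]

/-- the hypothesis on the subfields gives separated embeddings -/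
lemma fib_of_prim (hd : 0 < d) (T : Finset (AdjoinRoot A.charpoly →+* ℂ)) (m : ℕ) (hm : T.card = m)
    (hprim : ∀ B ∈ Algebra.adjoin ℚ {A}, (minpoly ℚ B).natDegree < d →
      ¬ d ∣ (minpoly ℚ B).natDegree * m)
    (τ τ' : AdjoinRoot A.charpoly →+* ℂ) (hne : τ ≠ τ') :
    ∃ φ ψ : AdjoinRoot A.charpoly →+* ℂ, φ ∈ T ∧ ψ ∉ T ∧ ∀ z, τ z = τ' z → ψ z = φ z := by
  classical
  have : Nonempty (Fin d) := ⟨⟨0, hd⟩⟩
  by_contra hcon
  push Not at hcon
  set F := eqF τ τ' with hF
  have hdvd : Module.finrank F (AdjoinRoot A.charpoly) ∣ T.card := by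
    refine dvd_card F T fun φ hφ ψ hψ => ?_
    by_contra hψT
    obtain ⟨z, hz, hz'⟩ := hcon φ ψ hφ hψT
    exact hz' (hψ z hz)
  have hmul := Module.finrank_mul_finrank ℚ F (AdjoinRoot A.charpoly)
  rw [finrank_KA] at hmul
  have hneT : F ≠ ⊤ := by
    intro htop
    apply hne
    refine RingHom.ext fun z => ?_
    have : z ∈ F := by rw [htop]; trivial
    exact this
  have hfr : Module.finrank F (AdjoinRoot A.charpoly) ≠ 1 := fun h1 =>
    hneT (IntermediateField.finrank_eq_one_iff_eq_top.1 h1)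
  have hpos : 0 < Module.finrank F (AdjoinRoot A.charpoly) := Module.finrank_pos
  have hposF : 0 < Module.finrank ℚ F := Module.finrank_pos
  obtain ⟨α, hα⟩ := Field.exists_primitive_element ℚ F
  have hdeg : (minpoly ℚ α).natDegree = Module.finrank ℚ F :=
    (Field.primitive_element_iff_minpoly_natDegree_eq ℚ α).1 hα
  have h1 : minpoly ℚ (fA A (α : AdjoinRoot A.charpoly)) = minpoly ℚ α := by
    rw [minpoly.algHom_eq (fA A) (RingHom.injective (fA A).toRingHom)]
    exact minpoly.algebraMap_eq (algebraMap F (AdjoinRoot A.charpoly)).injective α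
  refine hprim (fA A (α : AdjoinRoot A.charpoly)) (fA_mem A _) ?_ ?_
  · rw [h1, hdeg]
    calc Module.finrank ℚ F = Module.finrank ℚ F * 1 := (mul_one _).symm
      _ < Module.finrank ℚ F * Module.finrank F (AdjoinRoot A.charpoly) :=
          Nat.mul_lt_mul_of_pos_left (by omega) hposF
      _ = d := hmul
  · rw [h1, hdeg, ← hm]
    obtain ⟨q, hq⟩ := hdvd
    rw [hq, ← mul_assoc, hmul]
    exact dvd_mul_right _ _

/-- cardinality of the support of an invariant family of rows -/
lemma card_supp {K : Type*} [Field K] [NumberField K] (θ : K)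
    (hθ : ∀ τ τ' : K →+* ℂ, τ θ = τ' θ → τ = τ') (S : Finset (Fin d))
    (H : Fin d → (K →+* ℂ) → ℂ) (hli : LinearIndependent ℂ H)
    (hinv : ∀ i ∈ S, ∃ c : Fin d → ℂ, ∀ τ, τ θ * H i τ = ∑ k ∈ S, c k * H k τ)
    (T : Finset (K →+* ℂ)) (hT : ∀ τ, τ ∈ T ↔ ∃ i ∈ S, H i τ ≠ 0) : T.card = S.card := by
  classical
  let Ψ : ({i // i ∈ S} → ℂ) →ₗ[ℂ] ((K →+* ℂ) → ℂ) :=
    { toFun := fun a τ => ∑ i : {i // i ∈ S}, a i * H i.1 τ
      map_add' := by
        intro a a'; funext τ
        simp [add_mul, Finset.sum_add_distrib]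
      map_smul' := by
        intro q a; funext τ
        simp [Finset.mul_sum, mul_assoc] }
  have hΨ : ∀ a τ, Ψ a τ = ∑ i : {i // i ∈ S}, a i * H i.1 τ := fun _ _ => rfl
  have hinj : Function.Injective Ψ := by
    rw [injective_iff_map_eq_zero]
    intro a ha
    have h1 := hli.comp (fun i : {i // i ∈ S} => i.1) Subtype.val_injective
    rw [Fintype.linearIndependent_iff] at h1
    funext i
    refine h1 a ?_ i
    funext τ
    have := congrFun ha τ
    rw [hΨ] at this
    simpa [Finset.sum_apply] using this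
  -- the range is stable under multiplication by polynomials in `τ θ`
  have hst : ∀ u ∈ LinearMap.range Ψ, (fun τ : K →+* ℂ => τ θ * u τ) ∈ LinearMap.range Ψ := by
    rintro _ ⟨a, rfl⟩
    have h1 : ∀ i : {i // i ∈ S}, (fun τ : K →+* ℂ => τ θ * H i.1 τ) ∈ LinearMap.range Ψ := by
      intro i
      obtain ⟨c, hc⟩ := hinv i.1 i.2
      refine ⟨fun k => c k.1, ?_⟩
      funext τ
      rw [hΨ, hc τ]
      exact Finset.sum_coe_sort S (fun k => c k * H k τ)
    have h2 : (fun τ : K →+* ℂ => τ θ * Ψ a τ)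
        = ∑ i : {i // i ∈ S}, a i • (fun τ : K →+* ℂ => τ θ * H i.1 τ) := by
      funext τ
      rw [hΨ, Finset.mul_sum, Finset.sum_apply]
      refine Finset.sum_congr rfl fun i _ => ?_
      simp only [Pi.smul_apply, smul_eq_mul]
      ring
    rw [h2]
    exact Submodule.sum_mem _ fun i _ => Submodule.smul_mem _ _ (h1 i)
  have hst2 : ∀ (p : ℂ[X]) (u : (K →+* ℂ) → ℂ), u ∈ LinearMap.range Ψ →
      (fun τ : K →+* ℂ => p.eval (τ θ) * u τ) ∈ LinearMap.range Ψ := by
    intro p
    induction p using Polynomial.induction_on' with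
    | add p q hp hq =>
      intro u hu
      have := Submodule.add_mem _ (hp u hu) (hq u hu)
      convert this using 1
      funext τ
      simp [add_mul]
    | monomial n a =>
      intro u hu
      have h3 : ∀ n : ℕ, (fun τ : K →+* ℂ => (τ θ) ^ n * u τ) ∈ LinearMap.range Ψ := by
        intro n
        induction n with
        | zero => simpa using hu
        | succ n ih =>
          have := hst _ ih
          convert this using 1
          funext τ
          ring
      have := Submodule.smul_mem _ a (h3 n)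
      convert this using 1
      funext τ
      simp [mul_assoc]
  have hsingle : ∀ τ0 ∈ T, (Pi.single τ0 1 : (K →+* ℂ) → ℂ) ∈ LinearMap.range Ψ := by
    intro τ0 hτ0
    obtain ⟨i, hi, hne⟩ := (hT τ0).1 hτ0
    set p : ℂ[X] := ∏ τ ∈ Finset.univ.erase τ0, (X - C (τ θ)) with hp
    have hp0 : p.eval (τ0 θ) ≠ 0 := by
      rw [hp, Polynomial.eval_prod, Finset.prod_ne_zero_iff]
      intro τ hτ
      simp only [eval_sub, eval_X, eval_C, ne_eq, sub_eq_zero]
      intro h
      exact (Finset.ne_of_mem_erase hτ) (hθ _ _ h.symm)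
    have hp1 : ∀ τ, τ ≠ τ0 → p.eval (τ θ) = 0 := by
      intro τ hτ
      rw [hp, Polynomial.eval_prod]
      exact Finset.prod_eq_zero (Finset.mem_erase.2 ⟨hτ, Finset.mem_univ τ⟩) (by simp)
    have h4 := hst2 p (H i) ⟨Pi.single ⟨i, hi⟩ 1, by
      funext τ
      rw [hΨ, Finset.sum_eq_single ⟨i, hi⟩]
      · simp
      · intro k _ hk
        simp [Pi.single_eq_of_ne hk]
      · intro h
        exact absurd (Finset.mem_univ _) h⟩
    have h5 := Submodule.smul_mem _ (p.eval (τ0 θ) * H i τ0)⁻¹ h4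
    convert h5 using 1
    funext τ
    by_cases h : τ = τ0
    · subst h
      simp only [Pi.single_eq_same, Pi.smul_apply, smul_eq_mul]
      rw [inv_mul_cancel₀ (mul_ne_zero hp0 hne)]
    · simp [Pi.single_eq_of_ne h, hp1 τ h]
  -- restriction to `T`
  let R : ((K →+* ℂ) → ℂ) →ₗ[ℂ] ({τ // τ ∈ T} → ℂ) :=
    { toFun := fun u τ => u τ.1
      map_add' := fun _ _ => rfl
      map_smul' := fun _ _ => rfl }
  have hRΨ : Function.Bijective (R ∘ₗ Ψ) := by
    constructor
    · intro a a' h
      apply hinj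
      funext τ
      by_cases hτ : τ ∈ T
      · exact congrFun h ⟨τ, hτ⟩
      · have h0 : ∀ i : {i // i ∈ S}, H i.1 τ = 0 := by
          intro i
          by_contra hne
          exact hτ ((hT τ).2 ⟨i.1, i.2, hne⟩)
        rw [hΨ, hΨ]
        simp [h0]
    · rw [← LinearMap.range_eq_top, eq_top_iff]
      intro v _
      have h6 : v = ∑ τ : {τ // τ ∈ T}, v τ • R (Pi.single τ.1 1) := by
        funext σ
        rw [Finset.sum_apply, Finset.sum_eq_single σ]
        · simp [R]
        · intro τ _ hτ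
          have : σ.1 ≠ τ.1 := fun h => hτ (Subtype.ext h.symm)
          simp [R, Pi.single_eq_of_ne this]
        · intro h
          exact absurd (Finset.mem_univ _) h
      rw [h6]
      refine Submodule.sum_mem _ fun τ _ => Submodule.smul_mem _ _ ?_
      obtain ⟨a, ha⟩ := hsingle τ.1 τ.2
      exact ⟨a, by rw [LinearMap.comp_apply, ha]⟩
  have h7 := (LinearEquiv.ofBijective _ hRΨ).finrank_eq
  rw [Module.finrank_fintype_fun_eq_card, Module.finrank_fintype_fun_eq_card] at h7
  simpa using h7.symm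

theorem build (hd : 3 ≤ d) (h : Matrix (Fin d) (Fin d) ℝ) (hh : h.det ≠ 0)
    (S : Finset (Fin d)) (hS0 : 0 < S.card) (hSd : S.card < d)
    (hinv : ∀ i ∈ S, ∃ c : Fin d → ℝ, ∀ j,
      ∑ k, h i k * (A k j : ℝ) = ∑ k ∈ S, c k * h k j)
    (hprim : ∀ B ∈ Algebra.adjoin ℚ {A}, (minpoly ℚ B).natDegree < d →
      ¬ d ∣ (minpoly ℚ B).natDegree * S.card) :
    ∃ D : SD (AdjoinRoot A.charpoly) d, D.g = h := by
  classical
  obtain ⟨b, hb⟩ := exists_basis A (by omega)
  obtain ⟨N, hN, hNe, act⟩ := exists_pow_act (K := AdjoinRoot A.charpoly) b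
  choose H hH using fun i => embed_surj b (fun j => (h i j : ℂ))
  set θ := AdjoinRoot.root A.charpoly with hθ
  have hθb : ∀ (τ : AdjoinRoot A.charpoly →+* ℂ) j, τ θ * τ (b j) = ∑ k, (A k j : ℂ) * τ (b k) := by
    intro τ j
    rw [← map_mul, hb, map_sum]
    refine Finset.sum_congr rfl fun k _ => ?_
    rw [Algebra.smul_def, map_mul]
    simp
  have hconj := fun i τ => coef_conj b (fun j => h i j) (H i) (hH i) τ
  have hinv' : ∀ i ∈ S, ∃ c : Fin d → ℂ, ∀ τ, τ θ * H i τ = ∑ k ∈ S, c k * H k τ := by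
    intro i hi
    obtain ⟨c, hc⟩ := hinv i hi
    refine ⟨fun k => (c k : ℂ), ?_⟩
    have h1 := embed_indep b (fun τ => τ θ * H i τ - ∑ k ∈ S, (c k : ℂ) * H k τ) (by
      intro j
      have h2 : ((∑ k, h i k * (A k j : ℝ) : ℝ) : ℂ) = ((∑ k ∈ S, c k * h k j : ℝ) : ℂ) := by
        rw [hc j]
      push_cast at h2
      simp only [hH] at h2
      have h3 : ∑ τ : AdjoinRoot A.charpoly →+* ℂ, τ θ * H i τ * τ (b j)
          = ∑ k, (∑ τ : AdjoinRoot A.charpoly →+* ℂ, H i τ * τ (b k)) * (A k j : ℂ) := by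
        simp only [Finset.sum_mul]
        rw [Finset.sum_comm]
        refine Finset.sum_congr rfl fun τ _ => ?_
        have : τ θ * H i τ * τ (b j) = H i τ * (τ θ * τ (b j)) := by ring
        rw [this, hθb, Finset.mul_sum]
        refine Finset.sum_congr rfl fun k _ => ?_
        ring
      have h4 : ∑ τ : AdjoinRoot A.charpoly →+* ℂ, (∑ k ∈ S, (c k : ℂ) * H k τ) * τ (b j)
          = ∑ k ∈ S, (c k : ℂ) * ∑ τ : AdjoinRoot A.charpoly →+* ℂ, H k τ * τ (b j) := by
        simp only [Finset.mul_sum, Finset.sum_mul]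
        rw [Finset.sum_comm]
        refine Finset.sum_congr rfl fun k _ => Finset.sum_congr rfl fun τ _ => ?_
        ring
      simp only [sub_mul, Finset.sum_sub_distrib]
      rw [h3, h4, h2, sub_self])
    intro τ
    exact sub_eq_zero.1 (congrFun h1 τ)
  set T : Finset (AdjoinRoot A.charpoly →+* ℂ) := Finset.univ.filter fun τ => ∃ i ∈ S, H i τ ≠ 0
    with hT
  have hTmem : ∀ τ, τ ∈ T ↔ ∃ i ∈ S, H i τ ≠ 0 := by
    intro τ
    simp [hT]
  have hli : LinearIndependent ℂ H := by
    rw [Fintype.linearIndependent_iff]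
    intro a ha
    have h4 : (h.map (Complex.ofRealHom : ℝ →+* ℂ)).det ≠ 0 := by
      have := (Complex.ofRealHom : ℝ →+* ℂ).map_det h
      rw [RingHom.mapMatrix_apply] at this
      rw [← this]
      exact (_root_.map_ne_zero _).2 hh
    have h5 : a ᵥ* (h.map (Complex.ofRealHom : ℝ →+* ℂ)) = 0 := by
      funext j
      simp only [vecMul, dotProduct, Matrix.map_apply, Complex.ofRealHom_eq_coe, Pi.zero_apply, hH,
        Finset.mul_sum]
      rw [Finset.sum_comm]
      refine Finset.sum_eq_zero fun τ _ => ?_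
      have h6 := congrFun ha τ
      simp only [Finset.sum_apply, Pi.smul_apply, smul_eq_mul, Pi.zero_apply] at h6
      have h7 : ∑ i, a i * (H i τ * τ (b j)) = (∑ i, a i * H i τ) * τ (b j) := by
        rw [Finset.sum_mul]
        exact Finset.sum_congr rfl fun i _ => by ring
      rw [h7, h6, zero_mul]
    have h6 := Matrix.eq_zero_of_vecMul_eq_zero h4 h5
    intro i
    rw [h6]; rfl
  have hcard := card_supp θ (fun τ τ' h => emb_ext A τ τ' h) S H hli hinv' T hTmem
  refine ⟨{ hd := hd
            b := b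
            N := N
            hN := hN
            hNe := hNe
            act := act
            g := h
            hg := hh
            H := H
            hH := fun i j => hH i j
            S := S
            T := T
            hT := ?_
            hST := hcard
            hS0 := hS0
            hSd := hSd
            hTc := ?_
            hfib := ?_ }, rfl⟩
  · intro i hi τ hτ
    by_contra hne
    exact hτ ((hTmem τ).2 ⟨i, hi, hne⟩)
  · intro τ
    rw [hTmem, hTmem]
    refine exists_congr fun i => and_congr_right fun _ => ?_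
    rw [hconj i τ]
    exact _root_.map_ne_zero _
  · exact fib_of_prim A (by omega) T S.card hcard hprim

end

end Pool.Agent.R629.CSD
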