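import Mathlib
import Pool.Agent.H715R2.LimitAlg
import Pool.Agent.R629.CSD.Build

/-! # Limits with an invariant coordinate subspace -/

open NumberField Filter Topology Matrix H715R2

namespace Pool.Agent.R629.CSD

variable {d : ℕ}

lemma closure_orb_subset {g h : Matrix (Fin d) (Fin d) ℝ} (hh : h ∈ closure (Orb g)) :
    closure (Orb h) ⊆ closure (Orb g) := by
  refine closure_minimal ?_ isClosed_closure
  rintro _ ⟨a, γ, ha0, ha, hγ, rfl⟩
  exact closure_mul hh ha0 ha hγ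

theorem main_pos (hd : 3 ≤ d) {g h : Matrix (Fin d) (Fin d) ℝ} (hg : g.det ≠ 0)
    (hh : h ∈ closure (Orb g)) (A : Matrix (Fin d) (Fin d) ℚ) (hA : Irreducible A.charpoly)
    (S : Finset (Fin d)) (hS0 : 0 < S.card) (hSd : S.card < d)
    (hinv : ∀ i ∈ S, ∃ c : Fin d → ℝ, ∀ j,
      ∑ k, h i k * (A k j : ℝ) = ∑ k ∈ S, c k * h k j)
    (hprim : Nat.Coprime S.card d ∨ ∀ B ∈ Algebra.adjoin ℚ {A}, (minpoly ℚ B).natDegree < d →
      ¬ d ∣ (minpoly ℚ B).natDegree * S.card) :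
    PropInt g ∨ ∀ ε : ℝ, 0 < ε → ∃ x : Fin d → ℤ, x ≠ 0 ∧ |FF g (iR x)| < ε := by
  by_cases hb : ∃ ν : ℝ, 0 < ν ∧ HasNu g ν
  swap
  · right
    intro ε hε
    by_contra hcon
    push Not at hcon
    exact hb ⟨ε, hε, fun x hx => hcon x hx⟩
  obtain ⟨ν, hν, hnu⟩ := hb
  have hhd : h.det ≠ 0 := by
    intro h0
    have := abs_det_closure hh
    rw [h0, abs_zero] at this
    exact hg (abs_eq_zero.1 this.symm)
  have : Fact (Irreducible A.charpoly) := ⟨hA⟩
  have hprim' : ∀ B ∈ Algebra.adjoin ℚ {A}, (minpoly ℚ B).natDegree < d →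
      ¬ d ∣ (minpoly ℚ B).natDegree * S.card := by
    rcases hprim with hc | hp
    · intro B _ hlt hdvd
      have : Nonempty (Fin d) := ⟨⟨0, by omega⟩⟩
      have h1 : d ∣ (minpoly ℚ B).natDegree := (Nat.Coprime.symm hc).dvd_of_dvd_mul_right hdvd
      have h2 : 0 < (minpoly ℚ B).natDegree :=
        minpoly.natDegree_pos (Algebra.IsIntegral.isIntegral B)
      exact absurd (Nat.le_of_dvd h2 h1) (by omega)
    · exact hp
  obtain ⟨D, hD⟩ := build A hd h hhd S hS0 hSd hinv hprim'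
  have hnuh : HasNu D.g ν := by rw [hD]; exact hasNu_closure hnu hh
  obtain ⟨D', hD'⟩ := D.exists_dat hν hnuh
  rw [hD] at hD'
  rcases isolation D' g hg (closure_orb_subset hh hD') with h1 | h1
  · exact Or.inl h1
  · right
    intro ε hε
    obtain ⟨x, hx, hx2⟩ := dense_ne (by omega : 0 < d) h1 0 ε hε
    exact ⟨x, hx, by rwa [sub_zero] at hx2⟩

/-- the same with arbitrary diagonal matrices of determinant `±1` -/
theorem main (hd : 3 ≤ d) {g h : Matrix (Fin d) (Fin d) ℝ} (hg : g.det ≠ 0)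
    (a : ℕ → Fin d → ℝ) (γ : ℕ → Matrix (Fin d) (Fin d) ℤ)
    (ha : ∀ n, |∏ i, a n i| = 1) (hγ : ∀ n, |(γ n).det| = 1)
    (hlim : Tendsto (fun n => diagonal (a n) * g * (γ n).map (Int.cast : ℤ → ℝ)) atTop (𝓝 h))
    (A : Matrix (Fin d) (Fin d) ℚ) (hA : Irreducible A.charpoly)
    (S : Finset (Fin d)) (hS0 : 0 < S.card) (hSd : S.card < d)
    (hinv : ∀ i ∈ S, ∃ c : Fin d → ℝ, ∀ j,
      ∑ k, h i k * (A k j : ℝ) = ∑ k ∈ S, c k * h k j)
    (hprim : Nat.Coprime S.card d ∨ ∀ B ∈ Algebra.adjoin ℚ {A}, (minpoly ℚ B).natDegree < d →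
      ¬ d ∣ (minpoly ℚ B).natDegree * S.card) :
    PropInt g ∨ ∀ ε : ℝ, 0 < ε → ∃ x : Fin d → ℤ, x ≠ 0 ∧ |FF g (iR x)| < ε := by
  classical
  have hane : ∀ n i, a n i ≠ 0 := by
    intro n i h0
    have h1 := ha n
    rw [Finset.prod_eq_zero (Finset.mem_univ i) h0, abs_zero] at h1
    exact zero_ne_one h1
  obtain ⟨p, hfreq⟩ : ∃ p : Fin d → Bool, ∃ᶠ n in atTop, (fun i => decide (0 < a n i)) = p := by
    by_contra hcon
    rw [not_exists] at hcon
    have h1 : ∀ᶠ n in atTop, ∀ p : Fin d → Bool, ¬ ((fun i => decide (0 < a n i)) = p) :=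
      Filter.eventually_all.2 fun p => not_frequently.1 (hcon p)
    obtain ⟨n, hn⟩ := h1.exists
    exact hn _ rfl
  obtain ⟨σ, hσ, hσ2⟩ := extraction_of_frequently_atTop hfreq
  set e : Fin d → ℝ := fun i => if p i then 1 else -1 with he
  have hea : ∀ n i, e i * a (σ n) i = |a (σ n) i| := by
    intro n i
    have h1 := congrFun (hσ2 n) i
    simp only [he]
    by_cases h2 : 0 < a (σ n) i
    · rw [← h1, abs_of_pos h2]; simp [h2]
    · have h3 : a (σ n) i < 0 := lt_of_le_of_ne (not_lt.1 h2) (hane _ _)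
      rw [← h1, abs_of_neg h3]; simp [h2]
  have hlim2 : Tendsto (fun n => diagonal (fun i => |a (σ n) i|) * g * zR (γ (σ n))) atTop
      (𝓝 (diagonal e * h)) := by
    have hcont : Continuous (fun M : Matrix (Fin d) (Fin d) ℝ => diagonal e * M) :=
      continuous_const.matrix_mul continuous_id
    have h1 := (hcont.tendsto h).comp (hlim.comp hσ.tendsto_atTop)
    refine h1.congr fun n => ?_
    simp only [Function.comp_apply]
    rw [← Matrix.mul_assoc, ← Matrix.mul_assoc, diagonal_mul_diagonal]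
    have h2 : (fun i => e i * a (σ n) i) = fun i => |a (σ n) i| := funext (hea n)
    rw [h2]
    rfl
  have hmemc : diagonal e * h ∈ closure (Orb g) := by
    refine mem_closure_of_tendsto hlim2 (Eventually.of_forall fun n => ?_)
    refine ⟨fun i => |a (σ n) i|, γ (σ n), fun i => abs_pos.2 (hane _ _), ?_, ?_, rfl⟩
    · rw [← Finset.abs_prod]; exact ha _
    · exact Int.isUnit_iff_abs_eq.2 (hγ _)
  have hee : ∀ i, e i * e i = 1 := by
    intro i
    simp only [he]
    split_ifs <;> norm_num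
  refine main_pos hd hg hmemc A hA S hS0 hSd (fun i hi => ?_) hprim
  obtain ⟨c, hc⟩ := hinv i hi
  refine ⟨fun k => e i * c k * e k, fun j => ?_⟩
  simp only [diagonal_mul]
  have h1 : ∑ k, e i * h i k * (A k j : ℝ) = e i * ∑ k, h i k * (A k j : ℝ) := by
    rw [Finset.mul_sum]
    exact Finset.sum_congr rfl fun k _ => by ring
  rw [h1, hc, Finset.mul_sum]
  refine Finset.sum_congr rfl fun k _ => ?_
  linear_combination (-(e i * c k * h k j)) * hee k

end Pool.Agent.R629.CSD
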